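import Pool.Agent.Helper58.PB.StS

/-!
# Project PB, module TWS: twisted sums on the major arc around `0`, all characters together
-/

set_option autoImplicit false

namespace Pool.Agent.Helper82.PB

open Finset ArithmeticFunction
open Pool.Agent.Helper58.PB
open Pool.Agent.Helper48.BK (ex th)
open Pool.Agent.Helper23.MV (PCh PS ZF ZS mwt OKb)

private lemma mem_PS_TWS (Q : ℝ) (c : PCh) (h : c ∈ PS Q) : (c.r : ℝ) ≤ Q := by
  unfold PS at h
  split_ifs at h with h1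
  · simpa using h
  · simp at h

private lemma uniq_TWS (c c' : PCh) (h : c.χ = 1) (h' : c'.χ = 1) : c = c' := by
  obtain ⟨r, hr, χ, pr⟩ := c
  obtain ⟨r', hr', χ', pr'⟩ := c'
  change χ = 1 at h
  change χ' = 1 at h'
  subst h
  subst h'
  have : NeZero r := ⟨hr⟩
  have : NeZero r' := ⟨hr'⟩
  have e1 : r = 1 := by
    rw [DirichletCharacter.isPrimitive_def, DirichletCharacter.conductor_one] at pr
    exact pr.symm
  have e2 : r' = 1 := by
    rw [DirichletCharacter.isPrimitive_def, DirichletCharacter.conductor_one] at pr'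
    exact pr'.symm
  subst e1
  subst e2
  rfl

private lemma ev_le_TWS (c : PCh) (n : ℕ) : ‖c.ev n‖ ≤ 1 := by
  unfold PCh.ev
  exact DirichletCharacter.norm_le_one _ _

private lemma th_nonneg_TWS (n : ℕ) : 0 ≤ th n := by
  unfold th
  split_ifs
  · exact Real.log_natCast_nonneg n
  · exact le_rfl

private lemma norm_ex_TWS (a : ℝ) : ‖ex a‖ = 1 := by
  unfold ex
  have : (2 * Real.pi * a * Complex.I : ℂ) = ((2 * Real.pi * a : ℝ) : ℂ) * Complex.I := by
    push_cast; ring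
  rw [this, Complex.norm_exp_ofReal_mul_I]

private lemma ex_sub_TWS (a b : ℝ) : ‖ex a - ex b‖ ≤ 2 * Real.pi * |a - b| := by
  have h1 : ex a = ex b * Complex.exp (Complex.I * ((2 * Real.pi * (a - b) : ℝ) : ℂ)) := by
    unfold ex
    rw [← Complex.exp_add]
    congr 1
    push_cast
    ring
  have h2 : ex a - ex b =
      ex b * (Complex.exp (Complex.I * ((2 * Real.pi * (a - b) : ℝ) : ℂ)) - 1) := by
    rw [h1]; ring
  rw [h2, norm_mul, norm_ex_TWS, one_mul]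
  refine (Real.norm_exp_I_mul_ofReal_sub_one_le).trans ?_
  rw [Real.norm_eq_abs, abs_mul, abs_of_pos (by positivity : (0 : ℝ) < 2 * Real.pi)]

private lemma mwt_sum_TWS {η : ℝ} (o : Option (PCh × ℝ)) (hok : OKb o η) (P : ℝ) (n : ℕ)
    (hn : 1 ≤ n) : ∑ c ∈ PS P, |mwt o c (n : ℝ)| ≤ 2 := by
  classical
  have hn1 : (1 : ℝ) ≤ n := by exact_mod_cast hn
  have h1 : ∑ c ∈ PS P, (if c.χ = 1 then (1 : ℝ) else 0) ≤ 1 := by
    rw [← sum_filter, sum_const, nsmul_eq_mul, mul_one]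
    have : ((PS P).filter (fun c => c.χ = 1)).card ≤ 1 := by
      rw [card_le_one]
      intro a ha b hb
      rw [mem_filter] at ha hb
      exact uniq_TWS a b ha.2 hb.2
    exact_mod_cast this
  match o, hok with
  | none, _ =>
    calc ∑ c ∈ PS P, |mwt none c (n : ℝ)| = ∑ c ∈ PS P, (if c.χ = 1 then (1 : ℝ) else 0) := by
          refine sum_congr rfl fun c _ => ?_
          unfold mwt
          simp only [sub_zero]
          split_ifs <;> simp
      _ ≤ 1 := h1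
      _ ≤ 2 := by norm_num
  | some (e, δ), hok =>
    obtain ⟨_, hδ, _, _, _⟩ := hok e δ rfl
    have h3 : (n : ℝ) ^ (-δ) ≤ 1 := Real.rpow_le_one_of_one_le_of_nonpos hn1 (by linarith)
    have h4 : 0 ≤ (n : ℝ) ^ (-δ) := by positivity
    have h2 : ∑ c ∈ PS P, (if c = e then (n : ℝ) ^ (-δ) else 0) ≤ 1 := by
      rw [← sum_filter, sum_const, nsmul_eq_mul]
      have : ((PS P).filter (fun c => c = e)).card ≤ 1 := by
        rw [card_le_one]
        intro a ha b hb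
        rw [mem_filter] at ha hb
        rw [ha.2, hb.2]
      have h5 : (((PS P).filter (fun c => c = e)).card : ℝ) ≤ 1 := by exact_mod_cast this
      nlinarith
    calc ∑ c ∈ PS P, |mwt (some (e, δ)) c (n : ℝ)|
        ≤ ∑ c ∈ PS P, ((if c.χ = 1 then (1 : ℝ) else 0) +
          (if c = e then (n : ℝ) ^ (-δ) else 0)) := by
          refine sum_le_sum fun c _ => ?_
          unfold mwt
          simp only
          refine (abs_sub _ _).trans ?_
          refine add_le_add ?_ ?_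
          · split_ifs <;> simp
          · split_ifs
            · rw [abs_of_nonneg h4]
            · simp
      _ ≤ 2 := by rw [sum_add_distrib]; linarith

private lemma ZS_nonneg_TWS (o : Option (PCh × ℝ)) (c : PCh) (η T Y : ℝ) (hY : 0 ≤ Y) :
    0 ≤ ZS o c η T Y := by
  unfold ZS
  exact sum_nonneg fun ρ _ => by positivity

private lemma blocks_TWS {M : Type*} [AddCommMonoid M] (g : ℕ → M) (m y k : ℕ) :
    ∑ n ∈ Ioc 0 (min (k * m) y), g n =
      ∑ i ∈ range k, ∑ n ∈ Ioc (min (i * m) y) (min ((i + 1) * m) y), g n := by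
  induction k with
  | zero => simp
  | succ k ih =>
    rw [sum_range_succ, ← ih]
    have h1 : min (k * m) y ≤ min ((k + 1) * m) y := by
      have : k * m ≤ (k + 1) * m := Nat.mul_le_mul_right _ (by omega)
      omega
    have h2 : Ioc 0 (min ((k + 1) * m) y) =
        Ioc 0 (min (k * m) y) ∪ Ioc (min (k * m) y) (min ((k + 1) * m) y) := by
      ext n
      simp only [mem_Ioc, mem_union]
      omega
    rw [h2, sum_union]
    rw [disjoint_left]
    intro n h3 h4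
    rw [mem_Ioc] at h3 h4
    omega

/-- one block -/
private lemma block_TWS {η X C : ℝ} (o : Option (PCh × ℝ)) (c : PCh) (β : ℝ) (x l m Y : ℕ)
    (hl : l ≤ m) (hxY : x + l ≤ Y) (hC : 0 ≤ C) (hX : 0 < X)
    (hI : X ^ (3 / 5 : ℝ) ≤ ((x + l : ℕ) : ℝ) →
      ‖∑ n ∈ Ioc x (x + l), (((th n : ℝ) : ℂ) * c.ev n - ((mwt o c n : ℝ) : ℂ))‖ ≤
        C * (l * ZS o c (2 * η) X (√X) + ((x + l : ℕ) : ℝ) * X ^ (-(η / 10)))) :
    ‖∑ n ∈ Ioc x (x + l), ((th n : ℝ) : ℂ) * c.ev n * ex (n * β)‖ ≤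
      ∑ n ∈ Ioc x (x + l), (|mwt o c n| + (if (n : ℝ) < X ^ (3 / 5 : ℝ) then th n else 0)) +
      C * (l * ZS o c (2 * η) X (√X) + (Y : ℝ) * X ^ (-(η / 10))) +
      ∑ n ∈ Ioc x (x + l), 2 * Real.pi * |β| * m * th n := by
  have hZ := ZS_nonneg_TWS o c (2 * η) X (√X) (Real.sqrt_nonneg X)
  have hXp : 0 ≤ X ^ (-(η / 10)) := by positivity
  have e1 : ∑ n ∈ Ioc x (x + l), ((th n : ℝ) : ℂ) * c.ev n * ex (n * β) =
      ex (x * β) * ∑ n ∈ Ioc x (x + l), ((th n : ℝ) : ℂ) * c.ev n +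
      ∑ n ∈ Ioc x (x + l), ((th n : ℝ) : ℂ) * c.ev n * (ex (n * β) - ex (x * β)) := by
    rw [mul_sum, ← sum_add_distrib]
    refine sum_congr rfl fun n _ => ?_
    ring
  have h2 : ‖∑ n ∈ Ioc x (x + l), ((th n : ℝ) : ℂ) * c.ev n * (ex (n * β) - ex (x * β))‖ ≤
      ∑ n ∈ Ioc x (x + l), 2 * Real.pi * |β| * m * th n := by
    refine norm_sum_le_of_le _ fun n hn => ?_
    rw [mem_Ioc] at hn
    rw [norm_mul, norm_mul, Complex.norm_real, Real.norm_eq_abs, abs_of_nonneg (th_nonneg_TWS n)]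
    have h3 : ‖ex (n * β) - ex (x * β)‖ ≤ 2 * Real.pi * |β| * m := by
      refine (ex_sub_TWS _ _).trans ?_
      rw [← sub_mul, abs_mul]
      have h4 : |(n : ℝ) - x| ≤ m := by
        have h5 : (x : ℝ) ≤ n := by exact_mod_cast hn.1.le
        rw [abs_of_nonneg (by linarith)]
        have h6 : (n : ℝ) ≤ x + l := by exact_mod_cast hn.2
        have h7 : (l : ℝ) ≤ m := by exact_mod_cast hl
        linarith
      have h8 : |(n : ℝ) - x| * |β| ≤ m * |β| := mul_le_mul_of_nonneg_right h4 (abs_nonneg β)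
      have h9 : (0 : ℝ) ≤ 2 * Real.pi := by positivity
      calc 2 * Real.pi * (|(n : ℝ) - x| * |β|) ≤ 2 * Real.pi * (m * |β|) :=
            mul_le_mul_of_nonneg_left h8 h9
        _ = 2 * Real.pi * |β| * m := by ring
    have h10 := ev_le_TWS c n
    have h11 := th_nonneg_TWS n
    calc th n * ‖c.ev n‖ * ‖ex (n * β) - ex (x * β)‖ ≤ th n * 1 * (2 * Real.pi * |β| * m) := by
          gcongr
      _ = 2 * Real.pi * |β| * m * th n := by ring
  have h3 : ‖∑ n ∈ Ioc x (x + l), ((th n : ℝ) : ℂ) * c.ev n‖ ≤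
      ∑ n ∈ Ioc x (x + l), (|mwt o c n| + (if (n : ℝ) < X ^ (3 / 5 : ℝ) then th n else 0)) +
      C * (l * ZS o c (2 * η) X (√X) + (Y : ℝ) * X ^ (-(η / 10))) := by
    have h0 : 0 ≤ C * (l * ZS o c (2 * η) X (√X) + (Y : ℝ) * X ^ (-(η / 10))) := by positivity
    by_cases hc : X ^ (3 / 5 : ℝ) ≤ ((x + l : ℕ) : ℝ)
    · have h4 := hI hc
      have e2 : ∑ n ∈ Ioc x (x + l), ((th n : ℝ) : ℂ) * c.ev n =
          ∑ n ∈ Ioc x (x + l), (((th n : ℝ) : ℂ) * c.ev n - ((mwt o c n : ℝ) : ℂ)) +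
          ∑ n ∈ Ioc x (x + l), ((mwt o c n : ℝ) : ℂ) := by
        rw [← sum_add_distrib]
        exact sum_congr rfl fun n _ => by ring
      rw [e2]
      refine (norm_add_le _ _).trans ?_
      have h5 : ‖∑ n ∈ Ioc x (x + l), ((mwt o c n : ℝ) : ℂ)‖ ≤
          ∑ n ∈ Ioc x (x + l), (|mwt o c n| +
            (if (n : ℝ) < X ^ (3 / 5 : ℝ) then th n else 0)) := by
        refine norm_sum_le_of_le _ fun n _ => ?_
        rw [Complex.norm_real, Real.norm_eq_abs]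
        have : 0 ≤ (if (n : ℝ) < X ^ (3 / 5 : ℝ) then th n else 0) := by
          split_ifs
          · exact th_nonneg_TWS n
          · exact le_rfl
        linarith
      have h6 : C * (l * ZS o c (2 * η) X (√X) + ((x + l : ℕ) : ℝ) * X ^ (-(η / 10))) ≤
          C * (l * ZS o c (2 * η) X (√X) + (Y : ℝ) * X ^ (-(η / 10))) := by
        have h7 : ((x + l : ℕ) : ℝ) ≤ Y := by exact_mod_cast hxY
        gcongr
      linarith
    · push Not at hc
      have h5 : ‖∑ n ∈ Ioc x (x + l), ((th n : ℝ) : ℂ) * c.ev n‖ ≤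
          ∑ n ∈ Ioc x (x + l), (|mwt o c n| +
            (if (n : ℝ) < X ^ (3 / 5 : ℝ) then th n else 0)) := by
        refine norm_sum_le_of_le _ fun n hn => ?_
        rw [mem_Ioc] at hn
        have h6 : (n : ℝ) < X ^ (3 / 5 : ℝ) := by
          refine lt_of_le_of_lt ?_ hc
          exact_mod_cast hn.2
        rw [if_pos h6, norm_mul, Complex.norm_real, Real.norm_eq_abs,
          abs_of_nonneg (th_nonneg_TWS n)]
        have h10 := ev_le_TWS c n
        have h11 := th_nonneg_TWS n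
        have h12 := abs_nonneg (mwt o c n)
        nlinarith
      linarith
  rw [e1]
  refine (norm_add_le _ _).trans ?_
  rw [norm_mul, norm_ex_TWS, one_mul]
  linarith

/-- all blocks -/
private lemma allblocks_TWS {η X C : ℝ} (o : Option (PCh × ℝ)) (c : PCh) (β : ℝ) (k m y Y : ℕ)
    (hy : y ≤ Y) (hk : y ≤ k * m) (hC : 0 ≤ C) (hX : 0 < X)
    (hI : ∀ x l : ℕ, X ^ (3 / 5 : ℝ) ≤ ((x + l : ℕ) : ℝ) → x + l ≤ Y →
      ‖∑ n ∈ Ioc x (x + l), (((th n : ℝ) : ℂ) * c.ev n - ((mwt o c n : ℝ) : ℂ))‖ ≤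
        C * (l * ZS o c (2 * η) X (√X) + ((x + l : ℕ) : ℝ) * X ^ (-(η / 10)))) :
    ‖Tc c y β‖ ≤
      ∑ n ∈ Ioc 0 y, (|mwt o c n| + (if (n : ℝ) < X ^ (3 / 5 : ℝ) then th n else 0)) +
      C * (y * ZS o c (2 * η) X (√X) + k * (Y : ℝ) * X ^ (-(η / 10))) +
      ∑ n ∈ Ioc 0 y, 2 * Real.pi * |β| * m * th n := by
  have hmin : min (k * m) y = y := by omega
  unfold Tc
  rw [← hmin, blocks_TWS, blocks_TWS, blocks_TWS]
  have hlen : ∑ i ∈ range k, ((min ((i + 1) * m) y - min (i * m) y : ℕ) : ℝ) =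
      ((min (k * m) y : ℕ) : ℝ) := by
    have h1 := blocks_TWS (fun _ => (1 : ℝ)) m y k
    simp only [sum_const, Nat.card_Ioc, nsmul_eq_mul, mul_one, Nat.sub_zero] at h1
    exact h1.symm
  refine (norm_sum_le _ _).trans ?_
  have hb : ∀ i ∈ range k,
      ‖∑ n ∈ Ioc (min (i * m) y) (min ((i + 1) * m) y), ((th n : ℝ) : ℂ) * c.ev n *
        ex (n * β)‖ ≤
      ∑ n ∈ Ioc (min (i * m) y) (min ((i + 1) * m) y),
        (|mwt o c n| + (if (n : ℝ) < X ^ (3 / 5 : ℝ) then th n else 0)) +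
      C * (((min ((i + 1) * m) y - min (i * m) y : ℕ) : ℝ) * ZS o c (2 * η) X (√X) +
        (Y : ℝ) * X ^ (-(η / 10))) +
      ∑ n ∈ Ioc (min (i * m) y) (min ((i + 1) * m) y), 2 * Real.pi * |β| * m * th n := by
    intro i _
    have h1 : min (i * m) y ≤ min ((i + 1) * m) y := by
      have : i * m ≤ (i + 1) * m := Nat.mul_le_mul_right _ (by omega)
      omega
    have h2 : min ((i + 1) * m) y - min (i * m) y ≤ m := by
      have : (i + 1) * m = i * m + m := by ring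
      omega
    have h3 : min (i * m) y + (min ((i + 1) * m) y - min (i * m) y) = min ((i + 1) * m) y := by
      omega
    have h4 : min (i * m) y + (min ((i + 1) * m) y - min (i * m) y) ≤ Y := by omega
    have h5 := block_TWS (η := η) (X := X) (C := C) o c β (min (i * m) y)
      (min ((i + 1) * m) y - min (i * m) y) m Y h2 h4 hC hX (fun h => hI _ _ h h4)
    rw [h3] at h5
    exact h5
  refine (sum_le_sum hb).trans ?_
  rw [sum_add_distrib, sum_add_distrib, ← mul_sum, sum_add_distrib, ← sum_mul, hlen]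
  rw [sum_const, card_range, nsmul_eq_mul]
  exact le_of_eq (by ring)

theorem hTws : StInt → StCps → StTws := by
  intro hInt hCps
  obtain ⟨η₁, hη₁, hη₁', h⟩ := hInt
  refine ⟨η₁, hη₁, hη₁', ?_⟩
  intro η hη hηη K hK
  obtain ⟨C, X0, hC, hX0, hI⟩ := h η hη hηη K hK
  obtain ⟨hcard, _, hth⟩ := hCps
  have hη100 : η ≤ 1 / 100 := hηη.trans hη₁'
  refine ⟨C, max X0 (max (16 ^ (5 : ℝ)) ((8 * C) ^ (1 / (η / 20)))), 2, hC,
    hX0.trans (le_max_left _ _), le_rfl, ?_⟩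
  intro X P E β o Y y hX hP hPX hok hE hXY hYK hyY hβ
  have hXX0 : X0 ≤ X := (le_max_left _ _).trans hX
  have hX5 : (16 : ℝ) ^ (5 : ℝ) ≤ X := (le_max_left _ _).trans ((le_max_right _ _).trans hX)
  have hXC : (8 * C) ^ (1 / (η / 20)) ≤ X :=
    (le_max_right _ _).trans ((le_max_right _ _).trans hX)
  have hX1 : 1 ≤ X := by linarith
  have hXpos : 0 < X := by linarith
  have hPpos : 0 < P := by linarith
  have hYpos : (0 : ℝ) < Y := by linarith
  have hY0 : (0 : ℝ) ≤ Y := hYpos.le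
  have hyY' : (y : ℝ) ≤ Y := by exact_mod_cast hyY
  -- powers of `P`
  have hPpow : ∀ j : ℕ, P ^ j ≤ X ^ (j * (η / 1000)) := by
    intro j
    calc P ^ j ≤ (X ^ (η / 1000)) ^ j := by gcongr
      _ = X ^ (j * (η / 1000)) := by
          rw [← Real.rpow_natCast, ← Real.rpow_mul hXpos.le]
          congr 1
          ring
  have hP30 : P ^ 30 ≤ Y := by
    calc P ^ 30 ≤ X ^ (((30 : ℕ) : ℝ) * (η / 1000)) := hPpow 30
      _ ≤ X ^ (1 : ℝ) := Real.rpow_le_rpow_of_exponent_le hX1 (by push_cast; linarith)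
      _ = X := Real.rpow_one X
      _ ≤ Y := hXY
  have hP30pos : 0 < P ^ 30 := by positivity
  have hP1 : 1 ≤ P := by linarith
  have hP30' : 1 ≤ P ^ 30 := one_le_pow₀ hP1
  set m : ℕ := ⌈(Y : ℝ) / P ^ 30⌉₊ with hm
  set k : ℕ := ⌈P ^ 30⌉₊ with hk
  have hmle : (m : ℝ) ≤ 2 * Y / P ^ 30 := by
    have h1 : (m : ℝ) < (Y : ℝ) / P ^ 30 + 1 := Nat.ceil_lt_add_one (by positivity)
    have h2 : 1 ≤ (Y : ℝ) / P ^ 30 := by rwa [le_div_iff₀ hP30pos, one_mul]
    have h3 : 2 * (Y : ℝ) / P ^ 30 = Y / P ^ 30 + Y / P ^ 30 := by ring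
    linarith
  have hmge : (Y : ℝ) / P ^ 30 ≤ m := Nat.le_ceil _
  have hkle : (k : ℝ) ≤ 2 * P ^ 30 := by
    have h1 : (k : ℝ) < P ^ 30 + 1 := Nat.ceil_lt_add_one hP30pos.le
    linarith
  have hkge : P ^ 30 ≤ (k : ℝ) := Nat.le_ceil _
  have hkm : y ≤ k * m := by
    have h1 : (Y : ℝ) ≤ k * m := by
      calc (Y : ℝ) = P ^ 30 * (Y / P ^ 30) := by field_simp
        _ ≤ k * m := by gcongr
    have h2 : (y : ℝ) ≤ ((k * m : ℕ) : ℝ) := by push_cast; linarith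
    exact_mod_cast h2
  have hcardP : ((PS P).card : ℝ) ≤ P ^ 2 := hcard P hP1
  have hZ : ∀ c, 0 ≤ ZS o c (2 * η) X (√X) := fun c =>
    ZS_nonneg_TWS o c (2 * η) X (√X) (Real.sqrt_nonneg X)
  -- the bound for one character
  have hone : ∀ c ∈ PS P, ‖Tc c y β‖ ≤
      ∑ n ∈ Ioc 0 y, (|mwt o c n| + (if (n : ℝ) < X ^ (3 / 5 : ℝ) then th n else 0)) +
      C * (y * ZS o c (2 * η) X (√X) + k * (Y : ℝ) * X ^ (-(η / 10))) +
      ∑ n ∈ Ioc 0 y, 2 * Real.pi * |β| * m * th n := by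
    intro c hc
    refine allblocks_TWS o c β k m y Y hyY hkm (by linarith) hXpos ?_
    intro x l h1 h2
    refine hI X o c x l hXX0 hok ?_ h1 ?_
    · refine (mem_PS_TWS P c hc).trans (hPX.trans ?_)
      exact Real.rpow_le_rpow_of_exponent_le hX1 (by linarith)
    · refine le_trans ?_ hYK
      exact_mod_cast h2
  -- the sums
  have s1 : ∑ c ∈ PS P, ∑ n ∈ Ioc 0 y, |mwt o c (n : ℝ)| ≤ 2 * Y := by
    rw [sum_comm]
    calc ∑ n ∈ Ioc 0 y, ∑ c ∈ PS P, |mwt o c (n : ℝ)| ≤ ∑ n ∈ Ioc 0 y, (2 : ℝ) :=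
          sum_le_sum fun n hn => mwt_sum_TWS o hok P n (mem_Ioc.1 hn).1
      _ = 2 * y := by
          rw [sum_const, Nat.card_Ioc, nsmul_eq_mul, Nat.sub_zero]; ring
      _ ≤ 2 * Y := by linarith
  have s2 : ∑ n ∈ Ioc 0 y, (if (n : ℝ) < X ^ (3 / 5 : ℝ) then th n else 0) ≤
      4 * X ^ (3 / 5 : ℝ) := by
    rw [← sum_filter]
    calc ∑ n ∈ (Ioc 0 y).filter (fun n : ℕ => (n : ℝ) < X ^ (3 / 5 : ℝ)), th n
        ≤ ∑ n ∈ Ioc 0 ⌊X ^ (3 / 5 : ℝ)⌋₊, th n := by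
          refine sum_le_sum_of_subset_of_nonneg ?_ fun n _ _ => th_nonneg_TWS n
          intro n hn
          rw [mem_filter, mem_Ioc] at hn
          rw [mem_Ioc]
          exact ⟨hn.1.1, Nat.le_floor hn.2.le⟩
      _ ≤ 4 * ((⌊X ^ (3 / 5 : ℝ)⌋₊ : ℕ) : ℝ) := hth _
      _ ≤ 4 * X ^ (3 / 5 : ℝ) := by
          have := Nat.floor_le (by positivity : 0 ≤ X ^ (3 / 5 : ℝ))
          linarith
  have s2' : P ^ 2 * (4 * X ^ (3 / 5 : ℝ)) ≤ Y / 4 := by
    have h1 : P ^ 2 ≤ X ^ (1 / 5 : ℝ) := by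
      calc P ^ 2 ≤ X ^ (((2 : ℕ) : ℝ) * (η / 1000)) := hPpow 2
        _ ≤ X ^ (1 / 5 : ℝ) := Real.rpow_le_rpow_of_exponent_le hX1 (by push_cast; linarith)
    have h2 : (16 : ℝ) ≤ X ^ (1 / 5 : ℝ) := by
      calc (16 : ℝ) = ((16 : ℝ) ^ (5 : ℝ)) ^ (1 / 5 : ℝ) := by
            rw [← Real.rpow_mul (by norm_num)]; norm_num
        _ ≤ X ^ (1 / 5 : ℝ) := by gcongr
    have h3 : X ^ (1 / 5 : ℝ) * X ^ (1 / 5 : ℝ) * X ^ (3 / 5 : ℝ) = X := by
      rw [← Real.rpow_add hXpos, ← Real.rpow_add hXpos]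
      norm_num
    have h4 : 0 ≤ X ^ (3 / 5 : ℝ) := by positivity
    have h5 : 0 ≤ X ^ (1 / 5 : ℝ) := by positivity
    calc P ^ 2 * (4 * X ^ (3 / 5 : ℝ)) ≤ X ^ (1 / 5 : ℝ) * (4 * X ^ (3 / 5 : ℝ)) := by gcongr
      _ = 16 * X ^ (1 / 5 : ℝ) * X ^ (3 / 5 : ℝ) / 4 := by ring
      _ ≤ X ^ (1 / 5 : ℝ) * X ^ (1 / 5 : ℝ) * X ^ (3 / 5 : ℝ) / 4 := by gcongr
      _ = X / 4 := by rw [h3]
      _ ≤ Y / 4 := by linarith
  have s4 : P ^ 2 * (C * (k * (Y : ℝ) * X ^ (-(η / 10)))) ≤ Y / 4 := by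
    have h1 : P ^ 2 * (C * (k * (Y : ℝ) * X ^ (-(η / 10)))) ≤
        2 * C * (P ^ 32 * X ^ (-(η / 10))) * Y := by
      calc P ^ 2 * (C * (k * (Y : ℝ) * X ^ (-(η / 10))))
          ≤ P ^ 2 * (C * (2 * P ^ 30 * (Y : ℝ) * X ^ (-(η / 10)))) := by gcongr
        _ = 2 * C * (P ^ 32 * X ^ (-(η / 10))) * Y := by ring
    have h2 : P ^ 32 * X ^ (-(η / 10)) ≤ X ^ (-(η / 20)) := by
      calc P ^ 32 * X ^ (-(η / 10)) ≤ X ^ (((32 : ℕ) : ℝ) * (η / 1000)) * X ^ (-(η / 10)) := by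
            have := hPpow 32
            gcongr
        _ = X ^ (((32 : ℕ) : ℝ) * (η / 1000) + -(η / 10)) := by rw [← Real.rpow_add hXpos]
        _ ≤ X ^ (-(η / 20)) := Real.rpow_le_rpow_of_exponent_le hX1 (by push_cast; linarith)
    have h3 : 8 * C ≤ X ^ (η / 20) := by
      have hη20 : 0 < η / 20 := by positivity
      calc 8 * C = ((8 * C) ^ (1 / (η / 20))) ^ (η / 20) := by
            rw [← Real.rpow_mul (by linarith)]
            rw [one_div, inv_mul_cancel₀ hη20.ne', Real.rpow_one]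
        _ ≤ X ^ (η / 20) := by
            apply Real.rpow_le_rpow _ hXC hη20.le
            positivity
    have h4 : 8 * C * X ^ (-(η / 20)) ≤ 1 := by
      rw [Real.rpow_neg hXpos.le]
      rw [mul_inv_le_iff₀ (by positivity), one_mul]
      exact h3
    calc P ^ 2 * (C * (k * (Y : ℝ) * X ^ (-(η / 10))))
        ≤ 2 * C * (P ^ 32 * X ^ (-(η / 10))) * Y := h1
      _ ≤ 2 * C * (X ^ (-(η / 20))) * Y := by gcongr
      _ = (8 * C * X ^ (-(η / 20))) * Y / 4 := by ring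
      _ ≤ 1 * Y / 4 := by gcongr
      _ = Y / 4 := by ring
  have s5 : P ^ 2 * ∑ n ∈ Ioc 0 y, 2 * Real.pi * |β| * m * th n ≤ (Y : ℝ) / 4 := by
    rw [← mul_sum]
    have h1 : ∑ n ∈ Ioc 0 y, th n ≤ 4 * Y := (hth y).trans (by linarith)
    have h0 : 0 ≤ ∑ n ∈ Ioc 0 y, th n := sum_nonneg fun n _ => th_nonneg_TWS n
    have h2 : P ^ 2 * (2 * Real.pi * |β| * m * ∑ n ∈ Ioc 0 y, th n) ≤
        P ^ 2 * (2 * Real.pi * (P ^ 20 / Y) * (2 * Y / P ^ 30) * (4 * Y)) := by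
      gcongr
    have h3 : P ^ 2 * (2 * Real.pi * (P ^ 20 / Y) * (2 * Y / P ^ 30) * (4 * Y)) =
        16 * Real.pi / P ^ 8 * Y := by
      field_simp
      ring
    have h4 : 16 * Real.pi / P ^ 8 ≤ 1 / 4 := by
      rw [div_le_iff₀ (by positivity)]
      have h5 : (2 : ℝ) ^ 8 ≤ P ^ 8 := by gcongr
      have h6 := Real.pi_lt_d2
      norm_num at h5
      linarith
    calc P ^ 2 * (2 * Real.pi * |β| * m * ∑ n ∈ Ioc 0 y, th n)
        ≤ 16 * Real.pi / P ^ 8 * Y := h2.trans (le_of_eq h3)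
      _ ≤ 1 / 4 * Y := by gcongr
      _ = Y / 4 := by ring
  calc ∑ c ∈ PS P, ‖Tc c y β‖
      ≤ ∑ c ∈ PS P, (∑ n ∈ Ioc 0 y, (|mwt o c n| +
          (if (n : ℝ) < X ^ (3 / 5 : ℝ) then th n else 0)) +
        C * (y * ZS o c (2 * η) X (√X) + k * (Y : ℝ) * X ^ (-(η / 10))) +
        ∑ n ∈ Ioc 0 y, 2 * Real.pi * |β| * m * th n) := sum_le_sum hone
    _ = ∑ c ∈ PS P, ∑ n ∈ Ioc 0 y, |mwt o c (n : ℝ)| +
        (PS P).card * (∑ n ∈ Ioc 0 y, (if (n : ℝ) < X ^ (3 / 5 : ℝ) then th n else 0)) +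
        C * (y * ∑ c ∈ PS P, ZS o c (2 * η) X (√X)) +
        (PS P).card * (C * (k * (Y : ℝ) * X ^ (-(η / 10)))) +
        (PS P).card * ∑ n ∈ Ioc 0 y, 2 * Real.pi * |β| * m * th n := by
        rw [sum_add_distrib, sum_add_distrib]
        have u1 : ∑ c ∈ PS P, ∑ n ∈ Ioc 0 y, (|mwt o c n| +
            (if (n : ℝ) < X ^ (3 / 5 : ℝ) then th n else 0)) =
            ∑ c ∈ PS P, ∑ n ∈ Ioc 0 y, |mwt o c (n : ℝ)| +
            (PS P).card * (∑ n ∈ Ioc 0 y, (if (n : ℝ) < X ^ (3 / 5 : ℝ) then th n else 0)) := by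
          simp only [sum_add_distrib]
          rw [sum_const, nsmul_eq_mul]
        have u2 : ∑ c ∈ PS P, C * (y * ZS o c (2 * η) X (√X) + k * (Y : ℝ) * X ^ (-(η / 10))) =
            C * (y * ∑ c ∈ PS P, ZS o c (2 * η) X (√X)) +
            (PS P).card * (C * (k * (Y : ℝ) * X ^ (-(η / 10)))) := by
          rw [← mul_sum, sum_add_distrib, ← mul_sum, sum_const, nsmul_eq_mul]
          ring
        have u3 : ∑ c ∈ PS P, ∑ n ∈ Ioc 0 y, 2 * Real.pi * |β| * m * th n =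
            (PS P).card * ∑ n ∈ Ioc 0 y, 2 * Real.pi * |β| * m * th n := by
          rw [sum_const, nsmul_eq_mul]
        rw [u1, u2, u3]
        ring
    _ ≤ 2 * Y + Y / 4 + C * (Y * E) + Y / 4 + (Y : ℝ) / 4 := by
        have t2 : ((PS P).card : ℝ) *
            (∑ n ∈ Ioc 0 y, (if (n : ℝ) < X ^ (3 / 5 : ℝ) then th n else 0)) ≤ Y / 4 := by
          refine le_trans ?_ s2'
          have : 0 ≤ ∑ n ∈ Ioc 0 y, (if (n : ℝ) < X ^ (3 / 5 : ℝ) then th n else 0) :=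
            sum_nonneg fun n _ => by
              split_ifs
              · exact th_nonneg_TWS n
              · exact le_rfl
          gcongr
        have t3 : C * (y * ∑ c ∈ PS P, ZS o c (2 * η) X (√X)) ≤ C * (Y * E) := by
          have : 0 ≤ ∑ c ∈ PS P, ZS o c (2 * η) X (√X) := sum_nonneg fun c _ => hZ c
          have hE0 : 0 ≤ E := this.trans hE
          gcongr
        have t4 : ((PS P).card : ℝ) * (C * (k * (Y : ℝ) * X ^ (-(η / 10)))) ≤ Y / 4 := by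
          refine le_trans ?_ s4
          gcongr
        have t5 : ((PS P).card : ℝ) * ∑ n ∈ Ioc 0 y, 2 * Real.pi * |β| * m * th n ≤
            (Y : ℝ) / 4 := by
          refine le_trans ?_ s5
          have : 0 ≤ ∑ n ∈ Ioc 0 y, 2 * Real.pi * |β| * m * th n :=
            sum_nonneg fun n _ => by
              have := th_nonneg_TWS n
              positivity
          gcongr
        linarith
    _ ≤ (3 + C * E) * Y := by nlinarith

end Pool.Agent.Helper82.PB
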